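import Pool.Agent.H628R3.RO.Defs
import Pool.Agent.H623R2.PS.Defs
import Pool.Agent.H620R2.Gauge.Defs

/-!
# The class `LNP`
-/

namespace Pool.Agent.V8H49.LNP

open Pool.Agent.NPC Pool.Agent.H628R3.RO

/-- The oracle-dependent `NP` language given by the algorithm `M` and the polynomial `p`: relative
to the oracle `Z` it contains `x` if `M` with oracle `Z` accepts `x` together with some certificate
`w` of length at most `p |x|`. -/
def NPlang (M : Alg) (p : Polynomial ℕ) (Z : Oracle) : Set (List Bool) :=
  {x | ∃ w : List Bool, w.length ≤ p.eval x.length ∧ M.out Z (pairBits x w) = some [true]}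

/-- The string coding a triple of strings. -/
def triple (x y z : List Bool) : List Bool := pairBits x (pairBits y z)

/-- The language `Lm(B)` of an oracle-dependent language `B`: the codes of the triples
`⟨x, z k, z n⟩` with `k ≥ 1` for which the probability that `x` is in `B Z`, for a random oracle
`Z`, is larger than `n / k`. Here `z i` (`Gauge.str i`) is the string number `i` in the
length-lexicographic order. -/
def Lm (B : Oracle → Set (List Bool)) : Set (List Bool) :=
  {t | ∃ (x : List Bool) (k n : ℕ), 1 ≤ k ∧
    t = triple x (H620R2.Gauge.str k) (H620R2.Gauge.str n) ∧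
    (n : ℝ) / k < randomOracle.real {Z | x ∈ B Z}}

/-- The class `LNP`: all languages `Lm(B)` of oracle-dependent `NP` languages `B`. -/
def IsLNP (L : Set (List Bool)) : Prop :=
  ∃ (M : Alg) (p : Polynomial ℕ), L = Lm (NPlang M p)

end Pool.Agent.V8H49.LNP
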