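import Pool.Agent.V8H49.LNP.Defs
import Pool.Agent.H628R3.RO.A2
import Pool.Agent.H628R3.RO.N1
import Pool.Agent.H656R2.AK.TQPoly
import Pool.Agent.H620R2.Gauge.S

/-!
# The machine for a language in `PSPACE`
-/

namespace Pool.Agent.V8H49.LNP

open Pool.Agent.NPC Pool.Agent.H628R3.RO Pool.Agent.H622R2
open Pool.Agent.H656R2.AK (QF evc)
open Pool.Agent.H623R2.PS (evq)

/-- the strings for the random number -/
def ub (i : ℕ) : List Bool := false :: false :: List.replicate i true

/-- the strings for the random bits -/
def yb (j : ℕ) : List Bool := false :: true :: j.bits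

/-- the local value at the node `w`, given the values at its children -/
def loc (Q : QF) (w : List Bool) (b0 b1 : Bool) : Bool :=
  bif decide (w.length < Q.1.length) then (bif Q.1.getD w.length false then b0 && b1 else b0 || b1)
    else evc w Q.2

/-- the questions -/
def qs (f : List Bool → QF) (y : List Bool) : List (List Bool) :=
  [[], [false], [true], true :: (unpair y).2, true :: ((unpair y).2 ++ [false]),
    true :: ((unpair y).2 ++ [true]), false :: true :: (valB (unpair y).2).bits] ++
    (List.range ((f (unpair y).1).1.length + 1)).map ub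

/-- the decision, from the answers -/
def decB (Q : QF) (w : List Bool) (a0 a1 a2 a3 a4 a5 a6 : Bool) (u : List Bool) : Bool :=
  bif a0 then
    (bif a1 then
      (a2 || (decide (w.length ≤ Q.1.length) && (a3 ^^ loc Q w a4 a5)))
    else (!a6 && decide (valB w < valB u)))
  else !(u.any fun b => b)

/-- the output, from the answers -/
def dec (f : List Bool → QF) (p : List Bool × List Bool) : List Bool :=
  [decB (f (unpair p.1).1) (unpair p.1).2 (p.2.getD 0 false) (p.2.getD 1 false)
    (p.2.getD 2 false) (p.2.getD 3 false) (p.2.getD 4 false) (p.2.getD 5 false) (p.2.getD 6 false)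
    ((List.range ((f (unpair p.1).1).1.length + 1)).map fun i => p.2.getD (7 + i) false)]

theorem poly_ub {α : Type} [TEnc α] {n : α → ℕ} (hn : UPoly n) : Poly (fun a => ub (n a)) :=
  Poly.cons (NPC.Poly.const _) (Poly.cons (NPC.Poly.const _)
    ((NPC.Poly.map (F := fun _ _ => true) hn (NPC.Poly.const true)).congr fun a => by simp))

theorem poly_evc {α : Type} [TEnc α] {u : α → List Bool} {C : α → List (List (Bool × ℕ))}
    (hu : Poly u) (hC : Poly C) : Poly (fun a => evc (u a) (C a)) := by
  have h : Poly (fun a => (C a).all fun c => c.any fun l => !((u a).getD l.2 false ^^ l.1)) := by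
    fun_prop
  refine h.congr fun a => ?_
  unfold evc
  congr 1
  funext c
  congr 1
  funext l
  cases (u a).getD l.2 false <;> cases l.1 <;> rfl

theorem poly_qs {f : List Bool → QF} (hf : Poly f) : Poly (qs f) := by
  have h1 : Poly (fun y => (unpair y).1) := Poly.fst poly_unpair
  have h2 : Poly (fun y => (unpair y).2) := Poly.snd poly_unpair
  have h3 : Poly (fun y => (f (unpair y).1).1) := Poly.fst (hf.comp h1)
  have h4 : UPoly (fun y => (f (unpair y).1).1.length + 1) :=
    (UPoly.length h3).add (UPoly.const 1)
  have h5 : Poly (fun y => (valB (unpair y).2).bits) := (Poly.valBits h2).natBits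
  have h6 : Poly (fun y => [[], [false], [true], true :: (unpair y).2,
      true :: ((unpair y).2 ++ [false]), true :: ((unpair y).2 ++ [true]),
      false :: true :: (valB (unpair y).2).bits]) := by
    fun_prop
  have h7 : Poly (fun y => (List.range ((f (unpair y).1).1.length + 1)).map fun i =>
      ub (min i ((f (unpair y).1).1.length + 1))) := by
    refine NPC.Poly.map (l := fun y => List.range ((f (unpair y).1).1.length + 1))
      (F := fun y i => ub (min i ((f (unpair y).1).1.length + 1))) h4.range ?_
    refine poly_ub (UPoly.of_le ?_ (h4.comp (Poly.fst Poly.id)) fun p => Nat.min_le_right _ _)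
    exact Poly.min (Poly.snd Poly.id) ((h4.comp (Poly.fst Poly.id)).toPoly)
  refine (h6.append h7).congr fun y => ?_
  unfold qs
  congr 1
  refine List.map_congr_left fun i hi => ?_
  rw [Nat.min_eq_left (List.mem_range.1 hi).le]

theorem poly_dec {f : List Bool → QF} (hf : Poly f) : Poly (dec f) := by
  have h0 : Poly (fun p : List Bool × List Bool => unpair p.1) :=
    poly_unpair.comp (Poly.fst Poly.id)
  have h1 : Poly (fun p : List Bool × List Bool => (unpair p.1).1) := Poly.fst h0
  have h2 : Poly (fun p : List Bool × List Bool => (unpair p.1).2) := Poly.snd h0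
  have hQ : Poly (fun p : List Bool × List Bool => f (unpair p.1).1) := hf.comp h1
  have h3 : Poly (fun p : List Bool × List Bool => (f (unpair p.1).1).1) := Poly.fst hQ
  have h3' : Poly (fun p : List Bool × List Bool => (f (unpair p.1).1).2) := Poly.snd hQ
  have h4 : UPoly (fun p : List Bool × List Bool => (f (unpair p.1).1).1.length + 1) :=
    (UPoly.length h3).add (UPoly.const 1)
  have h5 : Poly (fun p : List Bool × List Bool =>
      (List.range ((f (unpair p.1).1).1.length + 1)).map fun i => p.2.getD (7 + i) false) := by
    refine NPC.Poly.map (l := fun p : List Bool × List Bool =>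
      List.range ((f (unpair p.1).1).1.length + 1))
      (F := fun p i => p.2.getD (7 + i) false) h4.range ?_
    fun_prop
  have h6 : Poly (fun p : List Bool × List Bool => evc (unpair p.1).2 (f (unpair p.1).1).2) :=
    poly_evc h2 h3'
  have h7 := Poly.valBits h2
  have h8 := Poly.valBits h5
  have h9 : Poly (fun p : List Bool × List Bool =>
      ((List.range ((f (unpair p.1).1).1.length + 1)).map fun i =>
        p.2.getD (7 + i) false).any fun b => b) := by
    fun_prop
  unfold dec decB loc
  fun_prop

/-- The machine. -/
noncomputable def mach {f : List Bool → QF} (hf : Poly f) (p : Polynomial ℕ) : Alg :=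
  A2.ttAlg (poly_qs hf) (poly_dec hf) p

end Pool.Agent.V8H49.LNP
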