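import Pool.Agent.V8H49.LNP.Mach

/-!
# The probability of acceptance
-/

namespace Pool.Agent.V8H49.LNP

open Pool.Agent.NPC Pool.Agent.H628R3.RO Pool.Agent.H622R2 MeasureTheory
open Pool.Agent.H656R2.AK (QF evc)
open Pool.Agent.H623R2.PS (evq InPSPACE)

/-- the random number -/
def U (Q : QF) (Z : Oracle) : ℕ := valB ((List.range (Q.1.length + 1)).map fun i => Z (ub i))

/-- the truth value of the subformula at the node `w` -/
def val (Q : QF) (w : List Bool) : Bool := evq (Q.1.drop w.length) (fun u => evc (w ++ u) Q.2)

theorem val_rec (Q : QF) (w : List Bool) (hw : w.length ≤ Q.1.length) :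
    val Q w = loc Q w (val Q (w ++ [false])) (val Q (w ++ [true])) := by
  unfold loc
  rcases hw.lt_or_eq with h | h
  · rw [decide_eq_true h, cond_true]
    have h1 : Q.1.drop w.length = Q.1.getD w.length false :: Q.1.drop (w.length + 1) := by
      rw [List.drop_eq_getElem_cons h]
      simp [List.getD_eq_getElem?_getD, h]
    unfold val
    rw [h1, evq]
    simp only [List.length_append, List.length_singleton, List.append_assoc, List.singleton_append]
  · rw [decide_eq_false (by omega), cond_false]
    unfold val
    rw [h, List.drop_length, evq, List.append_nil]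

theorem tableau (Q : QF) (g : List Bool → Bool) :
    (∀ w : List Bool, w.length ≤ Q.1.length → g w = loc Q w (g (w ++ [false])) (g (w ++ [true]))) ↔
      ∀ w : List Bool, w.length ≤ Q.1.length → g w = val Q w := by
  constructor
  · intro h
    have key : ∀ (k : ℕ) (w : List Bool), w.length + k = Q.1.length → g w = val Q w := by
      intro k
      induction k with
      | zero =>
        intro w hw
        rw [h w (by omega), val_rec Q w (by omega)]
        unfold loc
        rw [decide_eq_false (by omega), cond_false, cond_false]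
      | succ k ih =>
        intro w hw
        rw [h w (by omega), val_rec Q w (by omega),
          ih (w ++ [false]) (by rw [List.length_append, List.length_singleton]; omega),
          ih (w ++ [true]) (by rw [List.length_append, List.length_singleton]; omega)]
    exact fun w hw => key (Q.1.length - w.length) w (by omega)
  · intro h w hw
    rcases hw.lt_or_eq with h1 | h1
    · rw [h w hw, h (w ++ [false]) (by rw [List.length_append, List.length_singleton]; omega),
        h (w ++ [true]) (by rw [List.length_append, List.length_singleton]; omega)]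
      exact val_rec Q w hw
    · rw [h w hw, val_rec Q w hw]
      unfold loc
      rw [decide_eq_false (by omega), cond_false, cond_false]

theorem testBit_valB (l : List Bool) (i : ℕ) : (valB l).testBit i = l.getD i false := by
  induction l generalizing i with
  | nil => simp
  | cons b l ih =>
    have h : valB (b :: l) = Nat.bit b (valB l) := by
      rw [valB_cons]
      cases b
      · simp [Nat.bit]
      · simp [Nat.bit]; omega
    rw [h]
    cases i with
    | zero => simp
    | succ i => rw [Nat.testBit_bit_succ, ih]; simp

theorem U_lt (Q : QF) (Z : Oracle) : U Q Z < 2 ^ (Q.1.length + 1) := by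
  have := valB_lt ((List.range (Q.1.length + 1)).map fun i => Z (ub i))
  rw [List.length_map, List.length_range] at this
  exact this

theorem U_eq_iff (Q : QF) (Z : Oracle) {u : ℕ} (hu : u < 2 ^ (Q.1.length + 1)) :
    U Q Z = u ↔ ∀ i < Q.1.length + 1, Z (ub i) = u.testBit i := by
  constructor
  · rintro rfl i hi
    unfold U
    rw [testBit_valB]
    simp [hi]
  · intro h
    apply Nat.eq_of_testBit_eq
    intro i
    by_cases hi : i < Q.1.length + 1
    · rw [← h i hi]
      unfold U
      rw [testBit_valB]
      simp [hi]
    · have h1 : 2 ^ (Q.1.length + 1) ≤ 2 ^ i := Nat.pow_le_pow_right (by norm_num) (by omega)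
      rw [Nat.testBit_lt_two_pow ((U_lt Q Z).trans_le h1), Nat.testBit_lt_two_pow (hu.trans_le h1)]

/-- Acceptance. -/
def Acc (Q : QF) (Z : Oracle) : Prop :=
  (Z [] = false ∧ ∀ i < Q.1.length + 1, Z (ub i) = false) ∨
  (Z [] = true ∧ Z [false] = true ∧ (Z [true] = true ∨ ∃ w : List Bool, w.length ≤ Q.1.length ∧
    Z (true :: w) ≠ loc Q w (Z (true :: (w ++ [false]))) (Z (true :: (w ++ [true]))))) ∨
  (Z [] = true ∧ Z [false] = false ∧ ∃ j < U Q Z, Z (yb j) = false)

theorem length_bits_le {j k : ℕ} (h : j < 2 ^ k) : j.bits.length ≤ k := by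
  rw [Nat.size_eq_bits_len]
  exact Nat.size_le.2 h

theorem acc_iff (Q : QF) (Z : Oracle) {P : ℕ} (hP : Q.1.length + 1 ≤ P) :
    (∃ w : List Bool, w.length ≤ P ∧ decB Q w (Z []) (Z [false]) (Z [true]) (Z (true :: w))
      (Z (true :: (w ++ [false]))) (Z (true :: (w ++ [true])))
      (Z (false :: true :: (valB w).bits))
      ((List.range (Q.1.length + 1)).map fun i => Z (ub i)) = true) ↔ Acc Q Z := by
  unfold decB Acc
  cases h0 : Z [] with
  | false =>
    simp only [cond_false, Bool.false_eq_true, false_and, or_false, true_and]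
    constructor
    · rintro ⟨w, _, h⟩ i hi
      rw [Bool.not_eq_true', List.any_eq_false] at h
      have := h (Z (ub i)) (List.mem_map.2 ⟨i, List.mem_range.2 hi, rfl⟩)
      simpa using this
    · intro h
      refine ⟨[], Nat.zero_le _, ?_⟩
      rw [Bool.not_eq_true', List.any_eq_false]
      intro b hb
      obtain ⟨i, hi, rfl⟩ := List.mem_map.1 hb
      rw [h i (List.mem_range.1 hi)]
      simp
  | true =>
    cases h1 : Z [false] with
    | false =>
      simp only [cond_true, cond_false, Bool.true_eq_false, false_and, false_or,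
        Bool.false_eq_true, true_and, and_false, Bool.and_eq_true, Bool.not_eq_true',
        decide_eq_true_eq]
      constructor
      · rintro ⟨w, _, h2, h3⟩
        exact ⟨valB w, h3, h2⟩
      · rintro ⟨j, h2, h3⟩
        refine ⟨j.bits, (length_bits_le (h2.trans (U_lt Q Z))).trans hP, ?_, ?_⟩
        · rw [valB_bits]; exact h3
        · rw [valB_bits]; exact h2
    | true =>
      simp only [cond_true, Bool.true_eq_false, false_and, false_or, true_and, or_false,
        Bool.or_eq_true, Bool.and_eq_true, decide_eq_true_eq, bne_iff_ne, ne_eq]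
      constructor
      · rintro ⟨w, _, h2 | ⟨h2, h3⟩⟩
        · exact Or.inl h2
        · exact Or.inr ⟨w, h2, h3⟩
      · rintro (h2 | ⟨w, h2, h3⟩)
        · exact ⟨[], Nat.zero_le _, Or.inl h2⟩
        · exact ⟨w, by omega, Or.inr ⟨h2, h3⟩⟩

theorem exists_mach {f : List Bool → QF} (hf : Poly f) : ∃ (M : Alg) (P : Polynomial ℕ),
    ∀ (Z : Oracle) (x : List Bool), x ∈ NPlang M P Z ↔ Acc (f x) Z := by
  obtain ⟨q, hq⟩ := (poly_qs hf).sz_le
  obtain ⟨r, hr⟩ := hf.sz_le
  refine ⟨mach hf (q.comp (Polynomial.C 4 * Polynomial.X + Polynomial.C 1)),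
    r.comp (Polynomial.C 4 * Polynomial.X + Polynomial.C 1) + Polynomial.C 1, fun Z x => ?_⟩
  have hout : ∀ y, (mach hf (q.comp (Polynomial.C 4 * Polynomial.X + Polynomial.C 1))).out Z y =
      some (dec f (y, (qs f y).map Z)) := by
    intro y
    have h1 := length_lt_sz (qs f y)
    have h2 : (qs f y).length + 1 ≤
        (q.comp (Polynomial.C 4 * Polynomial.X + Polynomial.C 1)).eval y.length :=
      A2.sz_eval_le (h1.trans_le (hq y))
    have h3 := A2.tt_run (poly_qs hf) (poly_dec hf)
      (q.comp (Polynomial.C 4 * Polynomial.X + Polynomial.C 1)) Z y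
      ((q.comp (Polynomial.C 4 * Polynomial.X + Polynomial.C 1)).eval y.length) 0 (Nat.zero_le _)
      (by omega)
    exact h3
  have hlen : (f x).1.length + 1 ≤
      (r.comp (Polynomial.C 4 * Polynomial.X + Polynomial.C 1) + Polynomial.C 1).eval x.length := by
    rw [Polynomial.eval_add, Polynomial.eval_C]
    have h1 : (f x).1.length ≤ sz (f x) := by
      have h2 := length_lt_sz (f x).1
      have h3 : sz (f x) = sz (f x).1 + sz (f x).2 + 1 := sz_pair (f x).1 (f x).2
      omega
    have h4 : (f x).1.length ≤
        (r.comp (Polynomial.C 4 * Polynomial.X + Polynomial.C 1)).eval x.length :=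
      A2.sz_eval_le (h1.trans (hr x))
    omega
  rw [← acc_iff (f x) Z hlen]
  unfold NPlang
  rw [Set.mem_ofPred_eq]
  refine exists_congr fun w => and_congr_right fun _ => ?_
  rw [hout, Option.some.injEq]
  unfold dec
  rw [List.cons.injEq]
  simp only [unpair_pairBits, and_true, qs, List.map_cons, List.cons_append, List.nil_append,
    List.map_map]
  have e : ((List.range ((f x).1.length + 1)).map fun i =>
      (Z [] :: Z [false] :: Z [true] :: Z (true :: w) :: Z (true :: (w ++ [false])) ::
        Z (true :: (w ++ [true])) :: Z (false :: true :: (valB w).bits) ::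
          List.map (Z ∘ ub) (List.range ((f x).1.length + 1))).getD (7 + i) false) =
      (List.range ((f x).1.length + 1)).map fun i => Z (ub i) := by
    refine List.map_congr_left fun i hi => ?_
    rw [show 7 + i = i + 1 + 1 + 1 + 1 + 1 + 1 + 1 by ring]
    simp only [List.getD_cons_succ]
    simp [List.mem_range.1 hi]
  rw [e]
  rfl

end Pool.Agent.V8H49.LNP
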