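import Pool.Agent.V8H49.LNP.Main

/-!
# The probability of acceptance is larger than one half exactly if the formula is true
-/

namespace Pool.Agent.V8H49.LNP

open Pool.Agent.NPC Pool.Agent.H628R3.RO Pool.Agent.H622R2 MeasureTheory
open Pool.Agent.H656R2.AK (QF evc)
open Pool.Agent.H623R2.PS (evq InPSPACE)

instance : IsProbabilityMeasure randomOracle :=
  inferInstanceAs (IsProbabilityMeasure (Measure.infinitePi (fun _ : List Bool => coin)))

/-- a cylinder -/
def cy (K : List (List Bool)) (B : Oracle) : Set Oracle := {A | ∀ x ∈ K, A x = B x}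

theorem prob_cy {K : List (List Bool)} (hK : K.Nodup) (B : Oracle) :
    prob (cy K B) = (1 / 2) ^ K.length := prob_agree K hK B

theorem measurable_cy (K : List (List Bool)) (B : Oracle) : MeasurableSet (cy K B) :=
  measurable_agree K B

theorem ub_injective : Function.Injective ub := by
  intro i j h
  have := congrArg List.length h
  simpa [ub] using this

theorem yb_injective : Function.Injective yb := by
  intro i j h
  simp only [yb, List.cons.injEq, true_and] at h
  rw [← valB_bits i, h, valB_bits]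

/-- the strings of the first event -/
def K1 (Q : QF) : List (List Bool) := [] :: (List.range (Q.1.length + 1)).map ub

theorem nodup_K1 (Q : QF) : (K1 Q).Nodup := by
  unfold K1
  rw [List.nodup_cons]
  refine ⟨?_, (List.nodup_range).map ub_injective⟩
  simp [ub]

/-- the strings of the tableau event -/
def K2 (Q : QF) : List (List Bool) := [] :: [false] :: (strs Q.1.length).map (List.cons true)

theorem nodup_K2 (Q : QF) : (K2 Q).Nodup := by
  unfold K2
  rw [List.nodup_cons, List.nodup_cons]
  refine ⟨?_, ?_, (nodup_strs _).map (List.cons_injective)⟩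
  · simp
  · simp

/-- the pattern of the tableau event -/
def B2 (Q : QF) : Oracle
  | [] => true
  | false :: _ => true
  | true :: w => val Q w

/-- the strings of the event for the random number `u` -/
def K3 (Q : QF) (u : ℕ) : List (List Bool) :=
  [] :: [false] :: ((List.range (Q.1.length + 1)).map ub ++ (List.range u).map yb)

theorem nodup_K3 (Q : QF) (u : ℕ) : (K3 Q u).Nodup := by
  unfold K3
  rw [List.nodup_cons, List.nodup_cons, List.nodup_append]
  refine ⟨?_, ?_, (List.nodup_range).map ub_injective, (List.nodup_range).map yb_injective, ?_⟩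
  · simp [ub, yb]
  · simp [ub, yb]
  · intro a ha b hb
    obtain ⟨i, _, rfl⟩ := List.mem_map.1 ha
    obtain ⟨j, _, rfl⟩ := List.mem_map.1 hb
    simp [ub, yb]

/-- the pattern of the event for the random number `u` -/
def B3 (u : ℕ) : Oracle
  | [] => true
  | false :: false :: l => u.testBit l.length
  | false :: true :: _ => true
  | _ => false

theorem mem_K1 (Q : QF) (Z : Oracle) : Z ∈ cy (K1 Q) (fun _ => false) ↔
    Z [] = false ∧ ∀ i < Q.1.length + 1, Z (ub i) = false := by
  unfold cy K1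
  simp

theorem mem_K2 (Q : QF) (Z : Oracle) : Z ∈ cy (K2 Q) (B2 Q) ↔
    Z [] = true ∧ Z [false] = true ∧ ∀ w : List Bool, w.length ≤ Q.1.length →
      Z (true :: w) = val Q w := by
  unfold cy K2
  simp [B2, mem_strs]

theorem mem_K3 (Q : QF) (u : ℕ) (Z : Oracle) : Z ∈ cy (K3 Q u) (B3 u) ↔
    Z [] = true ∧ Z [false] = false ∧ (∀ i < Q.1.length + 1, Z (ub i) = u.testBit i) ∧
      ∀ j < u, Z (yb j) = true := by
  unfold cy K3
  simp only [List.mem_cons, List.mem_append, List.mem_map, List.mem_range, Set.mem_ofPred_eq,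
    forall_eq_or_imp]
  have h1 : B3 u [] = true := rfl
  have h2 : B3 u [false] = false := rfl
  have h3 : ∀ i, B3 u (ub i) = u.testBit i := by
    intro i
    simp [B3, ub]
  have h4 : ∀ j, B3 u (yb j) = true := by
    intro j
    simp [B3, yb]
  rw [h1, h2]
  refine and_congr_right fun _ => and_congr_right fun _ => ?_
  constructor
  · intro h
    exact ⟨fun i hi => by rw [h (ub i) (Or.inl ⟨i, hi, rfl⟩), h3],
      fun j hj => by rw [h (yb j) (Or.inr ⟨j, hj, rfl⟩), h4]⟩
  · rintro ⟨h5, h6⟩ x (⟨i, hi, rfl⟩ | ⟨j, hj, rfl⟩)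
    · rw [h3]; exact h5 i hi
    · rw [h4]; exact h6 j hj

/-- rejection in the third case -/
def R3 (Q : QF) : Set Oracle := ⋃ u ∈ Finset.range (2 ^ (Q.1.length + 1)), cy (K3 Q u) (B3 u)

theorem mem_R3 (Q : QF) (Z : Oracle) : Z ∈ R3 Q ↔
    Z [] = true ∧ Z [false] = false ∧ ∀ j < U Q Z, Z (yb j) = true := by
  unfold R3
  rw [Set.mem_iUnion₂]
  constructor
  · rintro ⟨u, hu, h⟩
    rw [mem_K3] at h
    rw [(U_eq_iff Q Z (Finset.mem_range.1 hu)).2 h.2.2.1]
    exact ⟨h.1, h.2.1, h.2.2.2⟩
  · rintro ⟨h1, h2, h3⟩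
    refine ⟨U Q Z, Finset.mem_range.2 (U_lt Q Z), ?_⟩
    rw [mem_K3]
    exact ⟨h1, h2, (U_eq_iff Q Z (U_lt Q Z)).1 rfl, h3⟩

theorem measurable_R3 (Q : QF) : MeasurableSet (R3 Q) :=
  Finset.measurableSet_biUnion _ fun _ _ => measurable_cy _ _

theorem prob_R3 (Q : QF) : prob (R3 Q) =
    (1 / 2) ^ (Q.1.length + 2) - (1 / 2) ^ (Q.1.length + 2 + 2 ^ (Q.1.length + 1)) := by
  have h1 : prob (R3 Q) = ∑ u ∈ Finset.range (2 ^ (Q.1.length + 1)), prob (cy (K3 Q u) (B3 u)) := by
    unfold prob R3
    apply measureReal_biUnion_finset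
    · intro u hu u' hu' hne
      rw [Function.onFun, Set.disjoint_left]
      intro A hA hA'
      apply hne
      rw [mem_K3] at hA hA'
      rw [← (U_eq_iff Q A (Finset.mem_range.1 hu)).2 hA.2.2.1,
        (U_eq_iff Q A (Finset.mem_range.1 hu')).2 hA'.2.2.1]
    · exact fun u _ => measurable_cy _ _
    · exact fun u _ => measure_ne_top _ _
  have h2 : ∀ u, prob (cy (K3 Q u) (B3 u)) = (1 / 2) ^ (Q.1.length + 3) * (1 / 2) ^ u := by
    intro u
    rw [prob_cy (nodup_K3 Q u), ← pow_add]
    congr 1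
    simp [K3]
    ring
  rw [h1, Finset.sum_congr rfl fun u _ => h2 u, ← Finset.mul_sum, geom_sum_eq (by norm_num)]
  rw [pow_add _ (Q.1.length + 2), pow_succ _ (Q.1.length + 2)]
  ring

theorem prob_acc (Q : QF) : 1 / 2 < prob {Z | Acc Q Z} ↔ val Q [] = true := by
  set n := Q.1.length with hn
  set R2 : Set Oracle := if val Q [] = true then ∅ else cy (K2 Q) (B2 Q) with hR2
  have hmR2 : ∀ Z, Z ∈ R2 ↔ Z [] = true ∧ Z [false] = true ∧ ¬ (Z [true] = true ∨
      ∃ w : List Bool, w.length ≤ Q.1.length ∧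
        Z (true :: w) ≠ loc Q w (Z (true :: (w ++ [false]))) (Z (true :: (w ++ [true])))) := by
    intro Z
    have htab := tableau Q (fun w => Z (true :: w))
    rw [hR2]
    split_ifs with h
    · simp only [Set.mem_empty_iff_false, false_iff]
      rintro ⟨_, _, h3⟩
      rw [not_or] at h3
      apply h3.1
      have h4 : ∀ w : List Bool, w.length ≤ Q.1.length →
          Z (true :: w) = loc Q w (Z (true :: (w ++ [false]))) (Z (true :: (w ++ [true]))) := by
        intro w hw
        by_contra h5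
        exact h3.2 ⟨w, hw, h5⟩
      rw [(htab.1 h4) [] (Nat.zero_le _), h]
    · rw [mem_K2]
      refine and_congr_right fun _ => and_congr_right fun _ => ?_
      rw [← htab, not_or]
      constructor
      · intro h3
        refine ⟨?_, ?_⟩
        · rw [(htab.1 h3) [] (Nat.zero_le _)]
          exact h
        · rintro ⟨w, hw, h5⟩
          exact h5 (h3 w hw)
      · rintro ⟨_, h3⟩ w hw
        by_contra h5
        exact h3 ⟨w, hw, h5⟩
  have hR2m : MeasurableSet R2 := by
    rw [hR2]
    split_ifs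
    · exact MeasurableSet.empty
    · exact measurable_cy _ _
  set E : Set Oracle := cy [[]] (fun _ => true) with hE
  have hmE : ∀ Z, Z ∈ E ↔ Z [] = true := by
    intro Z
    rw [hE]
    unfold cy
    simp
  have hset : {Z | Acc Q Z} = cy (K1 Q) (fun _ => false) ∪ (E \ (R2 ∪ R3 Q)) := by
    ext Z
    rw [Set.mem_ofPred_eq, Set.mem_union, Set.mem_sdiff, Set.mem_union, mem_K1, hmE, hmR2, mem_R3]
    unfold Acc
    cases h0 : Z [] <;> cases h1 : Z [false] <;> cases h2 : Z [true] <;> simp
  have hdisj : Disjoint (cy (K1 Q) (fun _ => false)) (E \ (R2 ∪ R3 Q)) := by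
    rw [Set.disjoint_left]
    intro Z h1 h2
    rw [mem_K1] at h1
    have := (hmE Z).1 h2.1
    rw [h1.1] at this
    simp at this
  have hsub : R2 ∪ R3 Q ⊆ E := by
    intro Z hZ
    rw [hmE]
    rcases hZ with h | h
    · exact ((hmR2 Z).1 h).1
    · exact ((mem_R3 Q Z).1 h).1
  have hdisj2 : Disjoint R2 (R3 Q) := by
    rw [Set.disjoint_left]
    intro Z h1 h2
    have h3 := ((hmR2 Z).1 h1).2.1
    have h4 := ((mem_R3 Q Z).1 h2).2.1
    rw [h3] at h4
    simp at h4
  have hEm : MeasurableSet E := measurable_cy _ _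
  have hUm : MeasurableSet (R2 ∪ R3 Q) := hR2m.union (measurable_R3 Q)
  have hp : prob {Z | Acc Q Z} = prob (cy (K1 Q) (fun _ => false)) +
      (prob E - (prob R2 + prob (R3 Q))) := by
    rw [hset]
    unfold prob
    rw [measureReal_union hdisj (hEm.diff hUm), measureReal_sdiff hsub hUm,
      measureReal_union hdisj2 (measurable_R3 Q)]
  have hp1 : prob (cy (K1 Q) (fun _ => false)) = (1 / 2) ^ (n + 2) := by
    rw [prob_cy (nodup_K1 Q)]
    congr 1
    simp [K1, hn]
  have hpE : prob E = 1 / 2 := by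
    rw [hE, prob_cy (by simp)]
    simp
  rw [hp, hp1, hpE, prob_R3, ← hn]
  have hpos : (0 : ℝ) < (1 / 2) ^ (n + 2 + 2 ^ (n + 1)) := by positivity
  by_cases hv : val Q [] = true
  · have h0 : prob R2 = 0 := by
      rw [hR2, if_pos hv]
      simp [prob]
    rw [h0]
    simp only [hv, iff_true]
    linarith
  · have h0 : prob R2 = (1 / 2) ^ (2 ^ (n + 1) + 1) := by
      rw [hR2, if_neg hv, prob_cy (nodup_K2 Q)]
      congr 1
      have := length_strs n
      simp only [K2, List.length_cons, List.length_map, ← hn]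
      omega
    rw [h0]
    refine ⟨fun h => ?_, fun h => absurd h hv⟩
    exfalso
    have h3 : ((1 : ℝ) / 2) ^ (n + 2 + 2 ^ (n + 1)) ≤ (1 / 2) ^ (2 ^ (n + 1) + 1) :=
      pow_le_pow_of_le_one (by norm_num) (by norm_num) (by omega)
    linarith

/-- Every language in `PSPACE` is given by an oracle-dependent `NP` language and the threshold
one half. -/
theorem pspace_half {L : Set (List Bool)} (hL : InPSPACE L) : ∃ (M : Alg) (P : Polynomial ℕ),
    ∀ x, x ∈ L ↔ 1 / 2 < randomOracle.real {Z | x ∈ NPlang M P Z} := by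
  obtain ⟨f, hf, _, hfL⟩ := Pool.Agent.H656R2.AK.qbf_hard hL
  obtain ⟨M, P, h⟩ := exists_mach hf
  refine ⟨M, P, fun x => ?_⟩
  have h1 : {Z | x ∈ NPlang M P Z} = {Z | Acc (f x) Z} := by
    ext Z
    exact h Z x
  have h2 := prob_acc (f x)
  rw [h1]
  unfold prob at h2
  rw [h2, hfL]
  unfold val
  simp

theorem triple_inj {x y z x' y' z' : List Bool} (h : triple x y z = triple x' y' z') :
    x = x' ∧ y = y' ∧ z = z' := by
  have h1 := congrArg unpair h
  unfold triple at h1
  rw [unpair_pairBits, unpair_pairBits, Prod.mk.injEq] at h1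
  have h2 := congrArg unpair h1.2
  rw [unpair_pairBits, unpair_pairBits, Prod.mk.injEq] at h2
  exact ⟨h1.1, h2.1, h2.2⟩

/-- `PSPACE` is reducible to `LNP`. -/
theorem pspace_le {L : Set (List Bool)} (hL : InPSPACE L) :
    ∃ L' : Set (List Bool), IsLNP L' ∧ Reduces L L' := by
  obtain ⟨M, P, h⟩ := pspace_half hL
  refine ⟨Lm (NPlang M P), ⟨M, P, rfl⟩,
    fun x => triple x (H620R2.Gauge.str 2) (H620R2.Gauge.str 1), ?_, fun x => ?_⟩
  · exact polyTime_of_poly_list (poly_pairBits Poly.id (NPC.Poly.const _))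
  · rw [h x]
    unfold Lm
    rw [Set.mem_ofPred_eq]
    constructor
    · intro h1
      exact ⟨x, 2, 1, by norm_num, rfl, by push_cast; exact h1⟩
    · rintro ⟨x', k, n, _, h2, h3⟩
      obtain ⟨rfl, h4, h5⟩ := triple_inj h2
      have h6 := H620R2.Gauge.str_injective h4
      have h7 := H620R2.Gauge.str_injective h5
      subst h6 h7
      push_cast at h3
      exact h3

end Pool.Agent.V8H49.LNP
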